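import Pool.Agent.Helper83.PH.Defs
import Pool.Agent.Helper71.QU.Any
import Pool.Agent.Helper95.HH.VolCmp

/-!
# PH/Ins: a thread is redrawn along a walk through hubs (drawing half of theorem (PH), MP_0dbcb7_co)

`insert_cost`: `T` is a thread of length at least `R`, `W` a walk with the same ends and no common edge, whose length plus
the degrees of the hubs inside it is at most `K |T|`. The other vertices of degree at least three on the path `W.bypass` are at
most `|W| / R + 1`, each of degree at most `C R`. Then `Helper71/QU/Any.insert_walk`. Gives `FP1` and `FQ1`.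
-/

set_option autoImplicit false
set_option linter.unusedSectionVars false

open Set
open Pool.Agent.Helper83.OP Pool.Agent.Helper93.HH Pool.Agent.Helper95.HH Pool.Agent.Helper71.QU
open Pool.Agent.Helper23.PL

namespace Pool.Agent.Helper83.PH

private theorem sh_pos {V : Type} [Finite V] {G : SimpleGraph V} {a b : V} (h : G.Adj a b) :
    deg G a ≠ 0 := by
  unfold deg
  intro h0
  rw [Set.ncard_eq_zero (Set.toFinite _)] at h0
  have : b ∈ G.neighborSet a := h
  rw [h0] at this
  exact this

private theorem sh_two {V : Type} [Finite V] {G : SimpleGraph V} (hd : ∀ v, deg G v ≠ 1)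
    {a b : V} (h : G.Adj a b) (h3 : ¬ 3 ≤ deg G a) : deg G a = 2 := by
  have h1 := sh_pos h
  have h2 := hd a
  omega

/-- the vertices of degree at least three after the first vertex -/
private theorem sh_aux {V : Type} [Finite V] (G : SimpleGraph V) (r : ℕ)
    (hd : ∀ v, deg G v ≠ 1)
    (low : ∀ u v (p : G.Walk u v), p.IsPath → u ≠ v → 3 ≤ deg G u → 3 ≤ deg G v →
      (∀ x ∈ p.support, x ≠ u → x ≠ v → deg G x = 2) → r ≤ p.length)
    {u v : V} (p : G.Walk u v) : ∀ {a : V} (q : G.Walk a u), (q.append p).IsPath →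
      3 ≤ deg G a → (∀ x ∈ q.support, x ≠ a → deg G x = 2) →
      (p.support.tail.filter (fun x => 3 ≤ deg G x)).length * r ≤ q.length + p.length := by
  induction p with
  | nil =>
    intro a q _ _ _
    simp
  | @cons u u' v h p ih =>
    intro a q hp ha hq
    have e1 : q.append (SimpleGraph.Walk.cons h p) = (q.concat h).append p := by
      rw [SimpleGraph.Walk.concat_append]
    rw [e1] at hp
    have hc : (q.concat h).IsPath := hp.of_append_left
    have hp' : p.IsPath := hp.of_append_right
    have hnot : u' ∉ q.support := ((SimpleGraph.Walk.concat_isPath_iff h).1 hc).2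
    have hau : a ≠ u' := fun h0 => hnot (h0 ▸ q.start_mem_support)
    have e2 : (SimpleGraph.Walk.cons h p).support.tail = u' :: p.support.tail := by
      rw [SimpleGraph.Walk.support_cons, List.tail_cons]
      exact p.cons_tail_support.symm
    rw [e2, SimpleGraph.Walk.length_cons]
    by_cases h3 : 3 ≤ deg G u'
    · rw [List.filter_cons_of_pos (by simpa using h3), List.length_cons, Nat.add_mul, Nat.one_mul]
      have h4 := ih (SimpleGraph.Walk.nil : G.Walk u' u') (by simpa using hp') h3 (by
        intro x hx hxu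
        simp only [SimpleGraph.Walk.support_nil, List.mem_singleton] at hx
        exact absurd hx hxu)
      have h5 := low a u' (q.concat h) hc hau ha h3 (by
        intro x hx hxa hxu
        rw [SimpleGraph.Walk.support_concat, List.mem_append, List.mem_singleton] at hx
        rcases hx with hx | hx
        · exact hq x hx hxa
        · exact absurd hx hxu)
      rw [SimpleGraph.Walk.length_concat] at h5
      rw [SimpleGraph.Walk.length_nil] at h4
      omega
    · rw [List.filter_cons_of_neg (by simpa using h3)]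
      have h4 := ih (q.concat h) hp ha (by
        intro x hx hxa
        rw [SimpleGraph.Walk.support_concat, List.mem_append, List.mem_singleton] at hx
        rcases hx with hx | hx
        · exact hq x hx hxa
        · rw [hx]
          exact sh_two hd h.symm h3)
      rw [SimpleGraph.Walk.length_concat] at h4
      omega

/-- the vertices of degree at least three on a path -/
private theorem sh_cnt {V : Type} [Finite V] (G : SimpleGraph V) (r : ℕ)
    (hd : ∀ v, deg G v ≠ 1)
    (low : ∀ u v (p : G.Walk u v), p.IsPath → u ≠ v → 3 ≤ deg G u → 3 ≤ deg G v →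
      (∀ x ∈ p.support, x ≠ u → x ≠ v → deg G x = 2) → r ≤ p.length)
    {u v : V} (p : G.Walk u v) (hp : p.IsPath) :
    (p.support.filter (fun x => 3 ≤ deg G x)).length * r ≤ p.length + r := by
  induction p with
  | @nil u =>
    rw [SimpleGraph.Walk.support_nil]
    have h1 : (List.filter (fun x => decide (3 ≤ deg G x)) [u]).length ≤ 1 :=
      (List.length_filter_le _ _)
    have h2 := Nat.mul_le_mul_right r h1
    simpa using h2
  | @cons u u' v h p ih =>
    by_cases h3 : 3 ≤ deg G u
    · have h4 := sh_aux G r hd low (SimpleGraph.Walk.cons h p) (SimpleGraph.Walk.nil : G.Walk u u)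
        (by simpa using hp) h3 (by
          intro x hx hxu
          simp only [SimpleGraph.Walk.support_nil, List.mem_singleton] at hx
          exact absurd hx hxu)
      rw [SimpleGraph.Walk.support_cons, List.tail_cons] at h4
      rw [SimpleGraph.Walk.support_cons, List.filter_cons_of_pos (by simpa using h3),
        List.length_cons, Nat.add_mul, Nat.one_mul]
      rw [SimpleGraph.Walk.length_nil] at h4
      omega
    · rw [SimpleGraph.Walk.support_cons, List.filter_cons_of_neg (by simpa using h3),
        SimpleGraph.Walk.length_cons]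
      have h4 := ih hp.of_cons
      omega

theorem kpl_le {V : Type} {m m' : ℕ} {G : SimpleGraph V} (h : KPl m G) (hm : m ≤ m') :
    KPl m' G := by
  obtain ⟨pos, γ, h1, h2⟩ := h
  exact ⟨pos, γ, h1, fun e he => (h2 e he).trans (by exact_mod_cast hm)⟩

/-- sums over the vertices of a path inside a walk -/
theorem sum_support {V : Type} {G : SimpleGraph V} {u v : V} (P W : G.Walk u v) (hP : P.IsPath)
    (hs : P.support ⊆ W.support) (f g : V → ℕ) (hfg : ∀ z, f z ≤ g z) :
    (P.support.map f).sum ≤ (W.support.map g).sum := by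
  obtain ⟨l, hl1, hl2⟩ := List.subperm_of_subset hP.support_nodup hs
  calc (P.support.map f).sum ≤ (P.support.map g).sum := List.sum_le_sum fun z _ => hfg z
    _ = (l.map g).sum := ((hl1.map g).sum_eq).symm
    _ ≤ (W.support.map g).sum := List.Sublist.sum_le_sum (hl2.map g) fun _ _ => Nat.zero_le _

private theorem in_num {C K R l T c s : ℕ} (hT0 : 1 ≤ T) (hRT : R ≤ T)
    (hc : c * R ≤ l + R) (hs : l + s ≤ K * T) :
    2 * ((s + (2 * (l + 1) + C * R * c)) + 8 * l) ≤
      (2 * (K + 2 * (K + 1) + C * (K + 1) + 8 * K)) * T := by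
  have h1 : C * R * c ≤ C * (K + 1) * T := by
    calc C * R * c = C * (c * R) := by ring
      _ ≤ C * (l + R) := Nat.mul_le_mul_left _ hc
      _ ≤ C * (K * T + T) := Nat.mul_le_mul_left _ (by omega)
      _ = C * (K + 1) * T := by ring
  have h2 : (2 * (K + 2 * (K + 1) + C * (K + 1) + 8 * K)) * T =
      2 * (K * T) + 4 * (K * T) + 4 * T + 2 * (C * (K + 1) * T) + 16 * (K * T) := by ring
  rw [h2]
  omega

open Classical in
/-- a thread along a walk through hubs -/
theorem insert_cost {V : Type} [Finite V] (G : SimpleGraph V) (U : Set V) (C R K : ℕ)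
    (hcrit : ∀ e ∈ G.edgeSet, KPl 1 (G.deleteEdges {e})) (hd : ∀ v, deg G v ≠ 1)
    (low : ∀ u v (p : G.Walk u v), p.IsPath → u ≠ v → 3 ≤ deg G u → 3 ≤ deg G v →
      (∀ x ∈ p.support, x ≠ u → x ≠ v → deg G x = 2) → R ≤ p.length)
    (hM : ∀ v, v ∉ U → deg G v ≤ C * R) {u v : V} (huv : u ≠ v) (T : G.Walk u v)
    (hT : T.IsPath) (hT2 : ∀ x ∈ T.support, x ≠ u → x ≠ v → deg G x = 2) (hTR : R ≤ T.length)
    (W : G.Walk u v) (hdis : ∀ f ∈ T.edges, f ∉ W.edges)
    (hc : W.length + (W.support.map fun z => if z ∈ U ∧ z ≠ u ∧ z ≠ v then deg G z else 0).sum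
      ≤ K * T.length) :
    KPl (max 9 (2 * (2 * (K + 2 * (K + 1) + C * (K + 1) + 8 * K)))) G := by
  have hT0 : 1 ≤ T.length := by
    rcases Nat.eq_zero_or_pos T.length with h | h
    · exact absurd (SimpleGraph.Walk.eq_of_length_eq_zero h) huv
    · exact h
  obtain ⟨Q, hQ⟩ : ∃ Q, Q = W.bypass := ⟨_, rfl⟩
  have hQp : Q.IsPath := by
    rw [hQ]
    exact W.bypass_isPath
  have hQs : Q.support ⊆ W.support := by
    rw [hQ]
    exact W.support_bypass_subset_support
  have hQe : ∀ f ∈ T.edges, f ∉ Q.edges := by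
    intro f hf hf'
    rw [hQ] at hf'
    exact hdis f hf (W.edges_bypass_subset_edges hf')
  have hQl : Q.length ≤ W.length := by
    rw [hQ]
    exact W.length_bypass_le_length
  -- the two parts of the sum
  set f1 : V → ℕ := fun z => if z ∈ U ∧ z ≠ u ∧ z ≠ v then deg G z else 0 with hf1
  have hcnt := sh_cnt G R hd low Q hQp
  obtain ⟨c, hcdef⟩ : ∃ c, c = (Q.support.filter (fun x => 3 ≤ deg G x)).length := ⟨_, rfl⟩
  rw [← hcdef] at hcnt
  have hsum1 : ∑ y ∈ Q.support.toFinset, f1 y ≤ (W.support.map f1).sum := by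
    rw [List.sum_toFinset f1 hQp.support_nodup]
    exact sum_support Q W hQp hQs f1 f1 fun _ => le_rfl
  have hsum2 : ∑ y ∈ Q.support.toFinset, (2 + if 3 ≤ deg G y then C * R else 0) ≤
      2 * (Q.length + 1) + C * R * c := by
    rw [Finset.sum_add_distrib, Finset.sum_const, smul_eq_mul, ← Finset.sum_filter,
      Finset.sum_const, smul_eq_mul]
    have h2 : Q.support.toFinset.card ≤ Q.length + 1 := by
      rw [← SimpleGraph.Walk.length_support]
      exact List.toFinset_card_le _
    have h3 : (Q.support.toFinset.filter (fun y => 3 ≤ deg G y)).card ≤ c := by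
      rw [hcdef]
      refine le_trans (Finset.card_le_card (t := (Q.support.filter
        (fun x => 3 ≤ deg G x)).toFinset) ?_) (List.toFinset_card_le _)
      intro y hy
      rw [Finset.mem_filter, List.mem_toFinset] at hy
      rw [List.mem_toFinset, List.mem_filter]
      exact ⟨hy.1, by simpa using hy.2⟩
    have h4 := Nat.mul_le_mul_right 2 h2
    have h5 := Nat.mul_le_mul_right (C * R) h3
    rw [Nat.mul_comm 2, Nat.mul_comm (C * R)]
    omega
  obtain ⟨S, hS⟩ : ∃ S : Finset V, S = Q.support.toFinset.filter (fun y => y ≠ u ∧ y ≠ v) :=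
    ⟨_, rfl⟩
  have hS1 : ∑ y ∈ S, deg G y ≤ (W.support.map f1).sum + (2 * (Q.length + 1) + C * R * c) := by
    calc ∑ y ∈ S, deg G y ≤ ∑ y ∈ S, (f1 y + (2 + if 3 ≤ deg G y then C * R else 0)) := by
          refine Finset.sum_le_sum fun y hy => ?_
          rw [hS, Finset.mem_filter] at hy
          by_cases hyU : y ∈ U
          · have h1 : f1 y = deg G y := if_pos ⟨hyU, hy.2.1, hy.2.2⟩
            omega
          · by_cases h3 : 3 ≤ deg G y
            · rw [if_pos h3]
              have := hM y hyU
              omega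
            · rw [if_neg h3]
              omega
      _ = ∑ y ∈ S, f1 y + ∑ y ∈ S, (2 + if 3 ≤ deg G y then C * R else 0) :=
          Finset.sum_add_distrib
      _ ≤ ∑ y ∈ Q.support.toFinset, f1 y +
          ∑ y ∈ Q.support.toFinset, (2 + if 3 ≤ deg G y then C * R else 0) := by
          rw [hS]
          exact Nat.add_le_add (Finset.sum_le_sum_of_subset (Finset.filter_subset _ _))
            (Finset.sum_le_sum_of_subset (Finset.filter_subset _ _))
      _ ≤ _ := Nat.add_le_add hsum1 hsum2
  refine insert_walk G hcrit huv T Q hT hT2 hQe S (fun y hy hyu hyv => ?_) _ ?_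
  · rw [hS, Finset.mem_filter, List.mem_toFinset]
    exact ⟨hy, hyu, hyv⟩
  · have h5 : Q.length + (W.support.map f1).sum ≤ K * T.length := by omega
    have h6 := in_num (C := C) hT0 hTR hcnt h5
    omega

section

variable {V P Q : Type} [Finite V] {D : HD V P Q}

theorem degU (hG : GOk D) {C R : ℕ} (hdeg : D.Kh * D.r ≤ C * R) (v : V) (hv : v ∉ D.U) :
    deg D.G v ≤ C * R := (hG.deg_le v hv).trans hdeg

/-- the pins are long -/
theorem w_low (hD : D.Ok) (hG : GOk D) {R : ℕ} (hlow : Low D R) (p : P) : R ≤ (D.w p).length := by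
  refine hlow _ _ (D.w p) (hD.w_path p) (fun h => hD.x_U p (h ▸ hD.hub_U p)) ?_
    (hG.U_ge _ (hD.hub_U p)) (hG.w_deg p)
  rw [hG.dg_eq _ (HD.x_VN p)]
  exact hD.three p

/-- the threads between hubs are long -/
theorem wq_low (hD : D.Ok) (hG : GOk D) {R : ℕ} (hlow : Low D R) (q : Q) :
    R ≤ (D.wq q).length :=
  hlow _ _ (D.wq q) (hD.wq_path q) (hD.q_ne q) (hG.U_ge _ (hD.ha_U q)) (hG.U_ge _ (hD.hb_U q))
    (hG.wq_deg q)

/-- **p1** -/
theorem draw_p1 {C R n0 k : ℕ} (h : Hyp D C R n0) (hk : 1 ≤ k)
    (hno : ¬ KPl (max 9 (2 * (2 * ((k + 1) + 2 * ((k + 1) + 1) + C * ((k + 1) + 1) +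
      8 * (k + 1))))) D.G) : FP1 D k := by
  classical
  rintro p ⟨y, hy, W, hW, hWc⟩
  apply hno
  have hlow := w_low h.ok h.gok h.low p
  have hne : D.x p ≠ D.hub p := fun h0 => h.ok.x_U p (h0 ▸ h.ok.hub_U p)
  have h2 := h.two
  refine insert_cost D.G D.U C R (k + 1) h.crit h.gok.deg_ne h.low (degU h.gok h.deg) hne (D.w p)
    (h.ok.w_path p) (h.gok.w_deg p) hlow (W.concat hy.1.symm) ?_ ?_
  · intro f hf hf'
    rw [SimpleGraph.Walk.edges_concat, List.concat_eq_append, List.mem_append,
      List.mem_singleton] at hf'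
    rcases hf' with hf' | hf'
    · exact hW f hf' hf
    · refine hy.2 ?_
      rw [Sym2.eq_swap, ← hf']
      exact hf
  · rw [SimpleGraph.Walk.length_concat, SimpleGraph.Walk.support_concat, List.map_append,
      List.sum_append]
    have h3 : ([D.hub p].map fun z => if z ∈ D.U ∧ z ≠ D.x p ∧ z ≠ D.hub p then
        deg D.G z else 0).sum = 0 := by
      simp
    rw [h3]
    have h4 : (W.support.map fun z => if z ∈ D.U ∧ z ≠ D.x p ∧ z ≠ D.hub p then
        deg D.G z else 0).sum ≤ (W.support.map fun z => if z ∈ D.U then deg D.G z else 0).sum := by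
      refine List.sum_le_sum fun z _ => ?_
      by_cases hz : z ∈ D.U
      · rw [if_pos hz]
        split_ifs <;> omega
      · rw [if_neg hz, if_neg (fun h0 => hz h0.1)]
    have h5 : (k + 1) * (D.w p).length = k * (D.w p).length + (D.w p).length := by ring
    unfold cw at hWc
    omega

/-- **q1** -/
theorem draw_q1 {C R n0 k : ℕ} (h : Hyp D C R n0) (hk : 1 ≤ k)
    (hno : ¬ KPl (max 9 (2 * (2 * ((k + 1) + 2 * ((k + 1) + 1) + C * ((k + 1) + 1) +
      8 * (k + 1))))) D.G) : FQ1 D k := by
  classical
  rintro q y z hy hz ⟨W, hW, hWc⟩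
  apply hno
  have hlow := wq_low h.ok h.gok h.low q
  have h2 := h.two
  refine insert_cost D.G D.U C R (k + 1) h.crit h.gok.deg_ne h.low (degU h.gok h.deg)
    (h.ok.q_ne q) (D.wq q) (h.ok.wq_path q) (h.gok.wq_deg q) hlow
    (SimpleGraph.Walk.cons hy.1 (W.concat hz.1.symm)) ?_ ?_
  · intro f hf hf'
    rw [SimpleGraph.Walk.edges_cons, List.mem_cons, SimpleGraph.Walk.edges_concat,
      List.concat_eq_append, List.mem_append, List.mem_singleton] at hf'
    rcases hf' with hf' | hf' | hf'
    · exact hy.2 (hf' ▸ hf)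
    · exact hW f hf' hf
    · refine hz.2 ?_
      rw [Sym2.eq_swap, ← hf']
      exact hf
  · rw [SimpleGraph.Walk.length_cons, SimpleGraph.Walk.length_concat,
      SimpleGraph.Walk.support_cons, List.map_cons, List.sum_cons,
      SimpleGraph.Walk.support_concat, List.map_append, List.sum_append]
    have h3 : ([D.hb q].map fun z => if z ∈ D.U ∧ z ≠ D.ha q ∧ z ≠ D.hb q then
        deg D.G z else 0).sum = 0 := by
      simp
    rw [h3]
    have h4 : (W.support.map fun z => if z ∈ D.U ∧ z ≠ D.ha q ∧ z ≠ D.hb q then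
        deg D.G z else 0).sum ≤ (W.support.map fun z => if z ∈ D.U then deg D.G z else 0).sum := by
      refine List.sum_le_sum fun z _ => ?_
      by_cases hz : z ∈ D.U
      · rw [if_pos hz]
        split_ifs <;> omega
      · rw [if_neg hz, if_neg (fun h0 => hz h0.1)]
    have h5 : (k + 1) * (D.wq q).length = k * (D.wq q).length + (D.wq q).length := by ring
    have h6 : (if D.ha q ∈ D.U ∧ D.ha q ≠ D.ha q ∧ D.ha q ≠ D.hb q then
        deg D.G (D.ha q) else 0) = 0 := if_neg (fun h0 => h0.2.1 rfl)
    rw [h6]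
    unfold cw at hWc
    omega

end

end Pool.Agent.Helper83.PH
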