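import Pool.Agent.Helper83.PH.SU
import Pool.Agent.Helper83.PH.Ins
import Pool.Agent.Helper95.PH.Geo

/-!
# PH/E1: a short cycle of `N` at a vertex without pins nearby (drawing half of theorem (PH), MP_0dbcb7_co)

A cycle `Z` of `N`, `y` on `Z`, no pin ends within `ρ` of `y` (`Pn`; feet of longer pins are allowed), the ball of radius `ρ`
has volume at most `n0`, `|Z| ≤ k ρ`. Take `(Z, y, ρ)` with `|Z|` minimal, `e = y v` the edge of `Z` at `y`,
`ρ₁ = min (ρ / 2) ((|Z| - 2) / 2)`, and `place_SU`. The ball of radius `ρ₁` in `outG` consists of vertices of `N` within `ρ₁` and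
inner vertices of pins (`near_VN`).
-/

set_option autoImplicit false
set_option linter.unusedSectionVars false

open Set
open Pool.Agent.Helper83.OP Pool.Agent.Helper93.HH Pool.Agent.Helper95.HH Pool.Agent.Helper43.HH
open Pool.Agent.Helper23.PL

namespace Pool.Agent.Helper83.PH

section

variable {V P Q : Type} [Finite V] {D : HD V P Q} {k n0 : ℕ}

/-- the vertices near a vertex of `N`, in the graph without the hubs -/
theorem near_VN (hD : D.Ok) (hG : GOk D) (e : Sym2 V) {y : V} (hy : y ∈ D.VN) (n : ℕ) :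
    ∀ z, Nr (outG D.G D.U e) n y z → (z ∈ D.VN ∧ Nr D.N n y z) ∨
      ∃ s j m, 1 ≤ j ∧ j < (D.w s).length ∧ z = (D.w s).getVert j ∧ Nr D.N m y (D.x s) ∧
        m + j ≤ n := by
  suffices H : ∀ (z : V) (p : (outG D.G D.U e).Walk z y), p.length ≤ n →
      (z ∈ D.VN ∧ Nr D.N n y z) ∨
      ∃ s j m, 1 ≤ j ∧ j < (D.w s).length ∧ z = (D.w s).getVert j ∧ Nr D.N m y (D.x s) ∧
        m + j ≤ n by
    rintro z ⟨p, hp⟩
    exact H z p.reverse (by rwa [SimpleGraph.Walk.length_reverse])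
  induction n with
  | zero =>
    intro z p hp
    have := SimpleGraph.Walk.eq_of_length_eq_zero (Nat.le_zero.1 hp)
    subst this
    exact Or.inl ⟨hy, Nr.refl _ _ _⟩
  | succ n ih =>
    intro z p hp
    cases p with
    | nil => exact Or.inl ⟨hy, Nr.refl _ _ _⟩
    | @cons _ w _ hw q =>
      rw [SimpleGraph.Walk.length_cons] at hp
      have h3 : D.G.Adj w z := hw.1.symm
      have hzU : z ∉ D.U := hw.2.2.1
      rcases ih w q (by omega) with ⟨h1, h2⟩ | ⟨s, j, m, h1, h2, h4, h5, h6⟩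
      · rcases adj_cases D hD hG w z h1 h3 with h4 | ⟨s, h4, h5⟩
        · exact Or.inl ⟨HD.VN_of_adj' h4, h2.trans (Nr.of_adj h4)⟩
        · refine Or.inr ⟨s, 1, n, le_rfl, ?_, h5.symm, h4 ▸ h2, by omega⟩
          have := hD.w_ge s
          have := hD.r_pos
          omega
      · subst h4
        rcases Pool.Agent.Helper95.PH.pin_step hD hG h1 h2 h3 with h7 | h7
        · rcases Nat.eq_or_lt_of_le h1 with h8 | h8
          · have h9 : z = D.x s := by
              rw [h7, ← h8]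
              exact SimpleGraph.Walk.getVert_zero _
            subst h9
            exact Or.inl ⟨HD.x_VN s, h5.mono (by omega)⟩
          · exact Or.inr ⟨s, j - 1, m, by omega, by omega, h7, h5, by omega⟩
        · rcases Nat.lt_or_ge (j + 1) (D.w s).length with h8 | h8
          · exact Or.inr ⟨s, j + 1, m, by omega, h8, h7, h5, by omega⟩
          · exfalso
            rw [SimpleGraph.Walk.getVert_of_length_le _ h8] at h7
            exact hzU (h7 ▸ hD.hub_U s)

theorem out_not_U {G : SimpleGraph V} {U : Set V} {e : Sym2 V} {u z : V} {t : ℕ}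
    (hu : u ∉ U) (h : Nr (outG G U e) t u z) : z ∉ U := by
  obtain ⟨p, -⟩ := h
  induction p with
  | nil => exact hu
  | cons h q ih => exact ih h.2.2.2

/-- no pin ends near `y`, the volume is small -/
def Far (D : HD V P Q) (n0 ρ : ℕ) (y : V) : Prop :=
  D.vol (D.ball ρ y) ≤ n0 ∧ ∀ q, ¬ Pn D ρ y q

theorem Far.shift {ρ t : ℕ} {y z : V} (h : Far D n0 ρ y) (hz : Nr D.N t y z) (ht : t ≤ ρ) :
    Far D n0 (ρ - t) z := by
  refine ⟨(D.vol_mono fun w hw => ?_).trans h.1, ?_⟩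
  · exact (hz.trans hw).mono (by omega)
  · rintro q ⟨s, hs, hsq⟩
    exact h.2 q ⟨t + s, hz.trans hs, by omega⟩

/-- a cycle with a far ball, of minimal length -/
private theorem exists_min {v : V} (Z : D.N.Walk v v) (hZ : Z.IsCycle) {y : V}
    (hy : y ∈ Z.support) {ρ : ℕ} (hF : Far D n0 ρ y) (hK : Z.length ≤ k * ρ) :
    ∃ (y : V) (Z : D.N.Walk y y) (ρ : ℕ), Z.IsCycle ∧ Far D n0 ρ y ∧ Z.length ≤ k * ρ ∧
      ∀ (y' : V) (Z' : D.N.Walk y' y') (ρ' : ℕ), Z'.IsCycle → Far D n0 ρ' y' →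
        Z'.length ≤ k * ρ' → Z.length ≤ Z'.length := by
  classical
  have hex : ∃ n, ∃ (y : V) (Z : D.N.Walk y y) (ρ : ℕ), Z.IsCycle ∧ Far D n0 ρ y ∧
      Z.length ≤ k * ρ ∧ Z.length = n := by
    refine ⟨_, y, Z.rotate y hy, ρ, ?_, hF, ?_, rfl⟩
    · rwa [SimpleGraph.Walk.isCycle_rotate]
    · rwa [SimpleGraph.Walk.length_rotate]
  obtain ⟨y1, Z1, ρ1, h1, h3, h4, h5⟩ := Nat.find_spec hex
  refine ⟨y1, Z1, ρ1, h1, h3, h4, fun y' Z' ρ' g1 g3 g4 => ?_⟩
  rw [h5]
  exact Nat.find_min' hex ⟨y', Z', ρ', g1, g3, g4, rfl⟩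

/-- the cycles of `N` are longer than `k` -/
theorem cyc_len (hc : FCyc D k) {v : V} (Z : D.N.Walk v v) (hZ : Z.IsCycle) : k < Z.length := by
  classical
  refine (hc v Z hZ).trans_le ?_
  have h1 : {z | z ∈ Z.support ∧ 3 ≤ D.dg z} ⊆ (Z.support.tail.toFinset : Set V) := by
    rintro z ⟨hz, -⟩
    rw [Finset.mem_coe, List.mem_toFinset]
    rw [SimpleGraph.Walk.mem_support_iff] at hz
    rcases hz with rfl | hz
    · exact SimpleGraph.Walk.end_mem_tail_support hZ.not_nil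
    · exact hz
  refine (Set.ncard_le_ncard h1 (Finset.finite_toSet _)).trans ?_
  rw [Set.ncard_coe_finset]
  refine (List.toFinset_card_le _).trans ?_
  rw [List.length_tail, SimpleGraph.Walk.length_support]
  omega

theorem outG_mono (D : HD V P Q) (e : Sym2 V) (y : V) :
    outG D.G D.U e ≤ outG D.G D.U s(y, y) := by
  intro a b h
  refine ⟨h.1, fun h0 => h.1.ne ?_, h.2.2⟩
  rcases Sym2.eq_iff.1 h0 with ⟨h1, h2⟩ | ⟨h1, h2⟩
  · exact h1.trans h2.symm
  · exact h1.trans h2.symm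

/-- **e1** -/
theorem draw_e1 (C k : ℕ) (hk3 : 3 ≤ k) : ∃ kk : ℕ, ∀ (V P Q : Type) [Finite V]
    (D : HD V P Q) (R n0 : ℕ), Hyp D C R n0 → FCyc D k → ¬ KPl kk D.G → FE1 D k n0 := by
  classical
  obtain ⟨kk, hkk⟩ := place_SU (3 * C) (3 * k + 5)
  refine ⟨kk, ?_⟩
  intro V P Q _ D R n0 h hc hno v0 Z0 hZ0 y0 hy0 ρ0 hv0 hp0
  by_contra hcon
  rw [not_lt] at hcon
  apply hno
  obtain ⟨y, Z, ρ, hZ, hF, hZρ, hmin⟩ := exists_min (k := k) Z0 hZ0 hy0 ⟨hv0, hp0⟩ hcon
  have hD := h.ok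
  have hG := h.gok
  have hlen := cyc_len hc Z hZ
  have hρ2 : 2 ≤ ρ := by
    by_contra h0
    have h1 : k * ρ ≤ k * 1 := Nat.mul_le_mul_left _ (by omega)
    omega
  obtain ⟨ρ₁, hρ₁⟩ : ∃ n, n = min (ρ / 2) ((Z.length - 2) / 2) := ⟨_, rfl⟩
  have a1 : 1 ≤ ρ₁ := by omega
  have a2 : 2 * ρ₁ ≤ ρ := by omega
  have a3 : 2 * ρ₁ + 2 ≤ Z.length := by omega
  have a4 : ρ ≤ 3 * ρ₁ ∨ Z.length ≤ 5 * ρ₁ := by omega
  -- the cycle at `y`
  obtain ⟨v, hyv, W0, hW0, hWe, hWl⟩ : ∃ (v : V) (hyv : D.N.Adj y v) (W0 : D.N.Walk v y),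
      W0.IsPath ∧ s(y, v) ∉ W0.edges ∧ W0.length + 1 = Z.length := by
    cases Z with
    | nil => exact absurd hZ.three_le_length (by simp)
    | @cons _ w _ h q =>
      obtain ⟨h1, h2⟩ := (SimpleGraph.Walk.cons_isCycle_iff q h).1 hZ
      exact ⟨w, h, q, h1, h2, by rw [SimpleGraph.Walk.length_cons]⟩
  have hyVN : y ∈ D.VN := HD.VN_of_adj hyv
  have hyU : y ∉ D.U := hD.N_U _ _ hyv
  have hnear : ∀ z, Nr (outG D.G D.U s(y, v)) ρ₁ y z → z ∈ D.VN → Nr D.N ρ₁ y z := by
    intro z hz hzN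
    rcases near_VN hD hG s(y, v) hyVN ρ₁ z hz with h1 | ⟨s, j, m, h1, h2, h4, -, -⟩
    · exact h1.2
    · exfalso
      refine hD.w_N s z (h4 ▸ SimpleGraph.Walk.getVert_mem_support _ _) (fun h5 => ?_) hzN
      have h6 := (hD.w_path s).getVert_injOn (show j ∈ {i | i ≤ (D.w s).length} from h2.le)
        (show (0 : ℕ) ∈ {i | i ≤ (D.w s).length} from Nat.zero_le _)
        (by rw [← h4, h5, SimpleGraph.Walk.getVert_zero])
      omega
  refine hkk V P Q D hD hG R h.two (h.deg.trans (by nlinarith)) h.low h.crit y v (hD.N_le hyv) hyU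
    (fun q hq => hD.wq_N q y hq hyVN) ρ₁ a1 ?_ ?_ ?_ ?_
    ((W0.reverse).transfer (D.G.deleteEdges {s(y, v)}) ?_) ?_ ?_
  · -- no hub near `y`
    intro z hz a ha hza
    exfalso
    rcases near_VN hD hG s(y, v) hyVN ρ₁ z hz with ⟨h1, -⟩ | ⟨s, j, m, h1, h2, h4, h5, h6⟩
    · exact VN_nadj hD hG h1 ha hza
    · have hzs : z ∈ (D.w s).support := h4 ▸ SimpleGraph.Walk.getVert_mem_support _ _
      have hinj := (hD.w_path s).getVert_injOn
      have hzx : z ≠ D.x s := by
        intro h7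
        have := hinj (show j ∈ {i | i ≤ (D.w s).length} from h2.le)
          (show (0 : ℕ) ∈ {i | i ≤ (D.w s).length} from Nat.zero_le _)
          (by rw [← h4, h7, SimpleGraph.Walk.getVert_zero])
        omega
      have hzh : z ≠ D.hub s := by
        intro h7
        have := hinj (show j ∈ {i | i ≤ (D.w s).length} from h2.le)
          (show (D.w s).length ∈ {i | i ≤ (D.w s).length} from le_refl (D.w s).length)
          (by rw [← h4, h7, SimpleGraph.Walk.getVert_length])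
        omega
      obtain ⟨-, h7⟩ := pin_iso hD hG hzs hzx hzh hza ha
      have h8 := hinj (show j ∈ {i | i ≤ (D.w s).length} from h2.le)
        (show (D.w s).length - 1 ∈ {i | i ≤ (D.w s).length} from Nat.sub_le _ _)
        (by rw [← h4]; exact h7)
      exact hF.2 s ⟨m, h5, by omega⟩
  · -- the volume
    refine (vol_cmp D hD hG _ (D.ball ρ y) ?_ ?_).trans ?_
    · exact fun z hz => out_not_U hyU hz
    · intro z hz hzN
      exact (hnear z hz hzN).mono (by omega)
    · have h1 : D.vol (D.ball ρ y) ≤ n0 := hF.1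
      have h2 : 3 * C * R = 3 * (C * R) := by ring
      have := h.vol
      omega
  · -- short cycles
    intro z Z1 hZ1 hz
    by_contra hcon1
    have hlen1 : Z1.length ≤ 2 * ρ₁ + 1 := by omega
    obtain ⟨Z2, hZ2, hZ2l, -⟩ := out_cycle hD hG Z1 hZ1
    have hzN : z ∈ D.VN := by
      cases Z2 with
      | nil => exact absurd hZ2.three_le_length (by simp)
      | cons h q => exact HD.VN_of_adj h
    have h1 := hmin z Z2 (ρ - ρ₁) hZ2 (hF.shift (hnear z hz hzN) (by omega)) ?_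
    · omega
    · have h3 : 3 * (ρ - ρ₁) ≤ k * (ρ - ρ₁) := Nat.mul_le_mul_right _ hk3
      omega
  · -- the other end
    intro hyv'
    obtain ⟨p, hp⟩ := hyv'
    have hpl : p.bypass.length ≤ ρ₁ := p.length_bypass_le_length.trans hp
    have hadj : (outG D.G D.U s(y, y)).Adj v y :=
      ⟨(hD.N_le hyv).symm, fun h0 => hyv.ne (by
        rcases Sym2.eq_iff.1 h0 with ⟨h1, -⟩ | ⟨h1, -⟩
        · exact h1.symm
        · exact h1.symm), hD.N_U _ _ hyv.symm, hyU⟩
    have hcyc : (SimpleGraph.Walk.cons hadj (p.bypass.mapLe (outG_mono D s(y, v) y))).IsCycle := by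
      rw [SimpleGraph.Walk.cons_isCycle_iff]
      refine ⟨(SimpleGraph.Walk.isPath_mapLe _).2 p.bypass_isPath, fun hmem => ?_⟩
      rw [SimpleGraph.Walk.edges_mapLe_eq_edges] at hmem
      exact (p.bypass.adj_of_mem_edges hmem).2.1 (by rw [Sym2.eq_swap])
    obtain ⟨Z2, hZ2, hZ2l, hZ2s⟩ := out_cycle hD hG _ hcyc
    have hmy : y ∈ Z2.support := by
      rw [hZ2s]
      simp
    have hl2 : Z2.length ≤ ρ₁ + 1 := by
      rw [hZ2l, SimpleGraph.Walk.length_cons, SimpleGraph.Walk.length_mapLe]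
      omega
    have h1 := hmin y (Z2.rotate y hmy) ρ (by rwa [SimpleGraph.Walk.isCycle_rotate]) hF ?_
    · rw [SimpleGraph.Walk.length_rotate] at h1
      omega
    · rw [SimpleGraph.Walk.length_rotate]
      have h3 : 3 * ρ ≤ k * ρ := Nat.mul_le_mul_right _ hk3
      omega
  · intro f hf
    rw [SimpleGraph.Walk.edges_reverse, List.mem_reverse] at hf
    rw [SimpleGraph.edgeSet_deleteEdges]
    refine ⟨SimpleGraph.edgeSet_mono hD.N_le (W0.edges_subset_edgeSet hf), fun h => hWe ?_⟩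
    rw [Set.mem_singleton_iff] at h
    rwa [h] at hf
  · exact hW0.reverse.transfer _
  · rw [SimpleGraph.Walk.length_transfer, SimpleGraph.Walk.length_reverse]
    have h0 : ∀ (l : List V), (∀ z ∈ l, z ∉ D.U) →
        (l.map (fun z => if z ∈ D.U ∧ z ≠ v then deg D.G z else 0)).sum = 0 := by
      intro l hl
      refine List.sum_eq_zero fun x hx => ?_
      obtain ⟨z, hz, rfl⟩ := List.mem_map.1 hx
      exact if_neg fun h => hl z hz h.1
    rw [h0]
    · have h1 : Z.length ≤ (3 * k + 5) * ρ₁ := by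
        have h4 : (3 * k + 5) * ρ₁ = k * (3 * ρ₁) + 5 * ρ₁ := by ring
        rcases a4 with h5 | h5
        · have h3 : k * ρ ≤ k * (3 * ρ₁) := Nat.mul_le_mul_left _ h5
          omega
        · omega
      omega
    · intro z hz
      rw [SimpleGraph.Walk.support_transfer, SimpleGraph.Walk.support_reverse,
        List.mem_reverse] at hz
      exact HD.VN_U hD (HD.VN_of_walk W0 (HD.VN_of_adj' hyv) hz)

end

end Pool.Agent.Helper83.PH
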