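import Pool.Agent.Helper83.PH.Defs
import Pool.Agent.Helper95.HH.CoreF
import Pool.Agent.Helper43.HH.OutG

/-!
# PH/NoCyc: no cycles near a pin (drawing half of theorem (PH), MP_0dbcb7_co)

If the only pins ending within `ρ` of `x p` are `p` and `q`, and the ball of radius `ρ` has volume at most `n0`, then
there is no cycle of `N` within `ρ / 4` of `x p` (from `FE1` with `16 ≤ k`). A cycle `Z` (inside a ball of radius `ρ - |Z|`)
has, by `FE1`, all its vertices within `|Z| / k` of `x p` or `x q`, so within `3 |Z| / k` of one of them, and a shorter cycle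
in this ball (`short_cycle`).
-/

set_option autoImplicit false
set_option linter.unusedSectionVars false

open Set
open Pool.Agent.Helper83.OP Pool.Agent.Helper93.HH Pool.Agent.Helper95.HH Pool.Agent.Helper23.PL

namespace Pool.Agent.Helper83.PH

/-- a cycle inside a ball of radius `m`: there is one of length at most `2 m + 1` -/
theorem short_cycle {V : Type} [Finite V] (N : SimpleGraph V) (x : V) (m : ℕ) {v : V}
    (Z : N.Walk v v) (hZ : Z.IsCycle) (hin : ∀ z ∈ Z.support, Nr N m x z) :
    ∃ (v' : V) (Z' : N.Walk v' v'), Z'.IsCycle ∧ Z'.length ≤ 2 * m + 1 ∧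
      ∀ z ∈ Z'.support, Nr N m x z := by
  classical
  let G0 : SimpleGraph V :=
    { Adj := fun a b => N.Adj a b ∧ Nr N m x a ∧ Nr N m x b
      symm := ⟨fun a b h => ⟨h.1.symm, h.2.2, h.2.1⟩⟩
      loopless := ⟨fun _ h => h.1.ne rfl⟩ }
  have hG0 : G0 ≤ N := fun a b h => h.1
  by_contra hcon
  push Not at hcon
  -- distances
  have hnr : ∀ z, Nr N m x z → Nr G0 m x z := by
    intro z hz
    obtain ⟨p, hp⟩ := hz
    have he : ∀ f ∈ p.edges, f ∈ G0.edgeSet := by
      intro f hf
      induction f using Sym2.ind with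
      | _ a b =>
        have ha := SimpleGraph.Walk.fst_mem_support_of_mem_edges _ hf
        have hb := SimpleGraph.Walk.snd_mem_support_of_mem_edges _ hf
        exact ⟨p.adj_of_mem_edges hf, (Nr.of_mem ha).mono hp, (Nr.of_mem hb).mono hp⟩
    exact ⟨p.transfer G0 he, by rwa [SimpleGraph.Walk.length_transfer]⟩
  obtain ⟨tt, par, core, c1, c2, c3, c4, c5, c6, -⟩ :=
    core_forest G0 m (SimpleGraph.Walk.nil : G0.Walk x x) SimpleGraph.Walk.IsPath.nil (by
      intro z C hC hz
      by_contra hlen
      have hC' : (C.mapLe hG0).IsCycle := (SimpleGraph.Walk.mapLe_isCycle hG0).2 hC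
      obtain ⟨w, hw, hw2⟩ := hcon z (C.mapLe hG0) hC' (by
        rw [SimpleGraph.Walk.length_mapLe]
        simpa using hlen)
      rw [SimpleGraph.Walk.support_mapLe_eq_support] at hw
      apply hw2
      have h1 := hC.ncard_neighborSet_toSubgraph_eq_two hw
      have h2 : (C.toSubgraph.neighborSet w).Nonempty := by
        rw [Set.nonempty_iff_ne_empty]
        intro h3
        rw [h3, Set.ncard_empty] at h1
        omega
      obtain ⟨w', hw'⟩ := h2
      exact (C.toSubgraph.adj_sub hw').2.1)
  have hB : ∀ z, (∃ y ∈ (SimpleGraph.Walk.nil : G0.Walk x x).support, Nr G0 m y z) ↔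
      Nr G0 m x z := by
    intro z
    constructor
    · rintro ⟨y, hy, hyz⟩
      rw [SimpleGraph.Walk.support_nil, List.mem_singleton] at hy
      subst hy
      exact hyz
    · intro h
      exact ⟨x, by simp, h⟩
  simp only [hB] at c1 c2 c3 c4 c5 c6
  have hZe : ∀ f ∈ Z.edges, f ∈ G0.edgeSet := by
    intro f hf
    induction f using Sym2.ind with
    | _ a b =>
      have ha := SimpleGraph.Walk.fst_mem_support_of_mem_edges _ hf
      have hb := SimpleGraph.Walk.snd_mem_support_of_mem_edges _ hf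
      exact ⟨Z.adj_of_mem_edges hf, hin _ ha, hin _ hb⟩
  have hZ0 : (Z.transfer G0 hZe).IsCycle := hZ.transfer _
  have hin0 : ∀ z ∈ (Z.transfer G0 hZe).support, Nr G0 m x z := by
    intro z hz
    rw [SimpleGraph.Walk.support_transfer] at hz
    exact hnr z (hin z hz)
  generalize Z.transfer G0 hZe = Z0 at hZ0 hin0
  -- the vertex with maximal `tt`
  obtain ⟨z, hz, hmax⟩ : ∃ z ∈ Z0.support, ∀ w ∈ Z0.support, tt w ≤ tt z := by
    obtain ⟨z, hz, h⟩ := Set.exists_max_image {w | w ∈ Z0.support} tt (Set.toFinite _)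
      ⟨v, Z0.start_mem_support⟩
    exact ⟨z, hz, h⟩
  have h2 := hZ0.ncard_neighborSet_toSubgraph_eq_two hz
  obtain ⟨w1, w2, hne, hw⟩ := Set.ncard_eq_two.1 h2
  have hw1 : w1 ∈ Z0.toSubgraph.neighborSet z := by rw [hw]; exact Or.inl rfl
  have hw2 : w2 ∈ Z0.toSubgraph.neighborSet z := by rw [hw]; exact Or.inr rfl
  have key : ∀ w, w ∈ Z0.toSubgraph.neighborSet z → par z = w := by
    intro w hw
    have ha : G0.Adj z w := Z0.toSubgraph.adj_sub hw
    have hws : w ∈ Z0.support := by
      have : w ∈ Z0.toSubgraph.verts := Z0.toSubgraph.edge_vert hw.symm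
      rwa [SimpleGraph.Walk.mem_verts_toSubgraph] at this
    rcases c5 z w (hin0 z hz) (hin0 w hws) ha with h | h | h
    · exact h.2
    · exfalso
      have h3 := (c2 w (hin0 w hws) h.1).2.2.1
      rw [h.2] at h3
      have := hmax w hws
      omega
    · exfalso
      have h3 := (c4 z (hin0 z hz)).1 h.1
      have h4 := (c4 w (hin0 w hws)).1 h.2
      rw [SimpleGraph.Walk.support_nil, List.mem_singleton] at h3 h4
      exact ha.ne (h3.trans h4.symm)
  exact hne ((key w1 hw1).symm.trans (key w2 hw2))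

section

variable {V P Q : Type} [Finite V] {D : HD V P Q} {k n0 : ℕ}

/-- a cycle inside a ball with at most two pins -/
theorem no_cyc_aux (hD : D.Ok) (hE : FE1 D k n0) (hk : 16 ≤ k) {p q : P} {ρ : ℕ}
    (hb : D.vol (D.ball ρ (D.x p)) ≤ n0) (hs : ∀ s, Pn D ρ (D.x p) s → s = p ∨ s = q) (n : ℕ) :
    ∀ v (Z : D.N.Walk v v), Z.IsCycle → Z.length ≤ n →
      ¬ ∃ d, d + Z.length ≤ ρ ∧ ∀ z ∈ Z.support, Nr D.N d (D.x p) z := by
  induction n with
  | zero =>
    intro v Z hZ hn
    have := hZ.three_le_length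
    omega
  | succ n ih =>
    intro v Z hZ hn
    rintro ⟨d, hd, hin⟩
    have h3 := hZ.three_le_length
    obtain ⟨h, hh⟩ : ∃ h, h = (Z.length + (k - 1)) / k := ⟨_, rfl⟩
    have hkh : Z.length ≤ k * h := by
      have := Nat.lt_mul_div_succ (Z.length + (k - 1)) (show 0 < k by omega)
      have e : k * ((Z.length + (k - 1)) / k + 1) = k * h + k := by rw [hh]; ring
      omega
    have hh2 : k * h ≤ Z.length + (k - 1) := by
      rw [hh]
      exact Nat.mul_div_le _ _
    have hh3 : 16 * h ≤ Z.length + 15 := by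
      rcases Nat.eq_zero_or_pos h with h0 | h0
      · omega
      · obtain ⟨h', rfl⟩ : ∃ h', h = h' + 1 := ⟨h - 1, by omega⟩
        have e1 : k * (h' + 1) = k * h' + k := by ring
        have e2 : 16 * h' ≤ k * h' := Nat.mul_le_mul_right _ hk
        omega
    -- every vertex of the cycle is near `x p` or `x q`
    have hnear : ∀ y ∈ Z.support, ∃ s, (s = p ∨ s = q) ∧ 2 ≤ h ∧ Nr D.N (h - 2) y (D.x s) := by
      intro y hy
      have h1 : D.vol (D.ball h y) ≤ n0 := by
        refine le_trans (D.vol_mono ?_) hb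
        intro w hw
        exact ((hin y hy).trans hw).mono (by omega)
      by_contra hcon
      have h2 : ∀ s, ¬ Pn D h y s := by
        rintro s ⟨t, ht, hts⟩
        have h4 := hD.w_ge s
        have h5 := hD.r_pos
        refine hcon ⟨s, hs s ⟨d + t, (hin y hy).trans ht, by omega⟩, by omega, ht.mono (by omega)⟩
      have := hE v Z hZ y hy h h1 h2
      omega
    have h2h : 2 ≤ h := by
      obtain ⟨s, -, h1, -⟩ := hnear v Z.start_mem_support
      exact h1
    -- a shorter cycle
    have hdesc : ∀ (s : P) (m : ℕ), m + (h - 2) + d + (2 * m + 1) ≤ ρ → 2 * m + 1 < Z.length →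
        (∃ y ∈ Z.support, Nr D.N (h - 2) y (D.x s)) → (∀ z ∈ Z.support, Nr D.N m (D.x s) z) →
        False := by
      intro s m hm1 hm2 ⟨y, hy, hys⟩ hm3
      obtain ⟨v', Z', hZ', hl, hin'⟩ := short_cycle D.N (D.x s) m Z hZ hm3
      refine ih v' Z' hZ' (by omega) ⟨d + (h - 2) + m, by omega, fun z hz => ?_⟩
      exact ((hin y hy).trans hys).trans (hin' z hz)
    by_cases hall : ∀ y ∈ Z.support, Nr D.N (h - 2) y (D.x p)
    · exact hdesc p (h - 2) (by omega) (by omega) ⟨v, Z.start_mem_support,
        hall v Z.start_mem_support⟩ (fun z hz => (hall z hz).symm)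
    · push Not at hall
      obtain ⟨y0, hy0, hy0p⟩ := hall
      have hy0q : Nr D.N (h - 2) y0 (D.x q) := by
        obtain ⟨s, hs1, -, hs2⟩ := hnear y0 hy0
        rcases hs1 with rfl | rfl
        · exact absurd hs2 hy0p
        · exact hs2
      by_cases hallq : ∀ y ∈ Z.support, Nr D.N (h - 2) y (D.x q)
      · exact hdesc q (h - 2) (by omega) (by omega) ⟨v, Z.start_mem_support,
          hallq v Z.start_mem_support⟩ (fun z hz => (hallq z hz).symm)
      · push Not at hallq
        obtain ⟨y1, hy1, hy1q⟩ := hallq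
        have hy1p : Nr D.N (h - 2) y1 (D.x p) := by
          obtain ⟨s, hs1, -, hs2⟩ := hnear y1 hy1
          rcases hs1 with rfl | rfl
          · exact hs2
          · exact absurd hs2 hy1q
        -- two adjacent vertices, near `x p` and near `x q`
        have hpq : Nr D.N ((h - 2) + 1 + (h - 2)) (D.x p) (D.x q) := by
          have hw : ∀ {a b : V} (W : D.N.Walk a b), (∀ z ∈ W.support, z ∈ Z.support) →
              Nr D.N (h - 2) a (D.x p) → Nr D.N (h - 2) b (D.x q) →
              Nr D.N ((h - 2) + 1 + (h - 2)) (D.x p) (D.x q) := by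
            intro a b W
            induction W with
            | nil =>
              intro _ h1 h2
              exact (h1.symm.trans h2).mono (by omega)
            | @cons a c b hac W ihW =>
              intro h1 h2 h4
              obtain ⟨s, hs1, -, hs2⟩ := hnear c (h1 c (by simp))
              rcases hs1 with rfl | rfl
              · exact ihW (fun z hz => h1 z (by simp [hz])) hs2 h4
              · exact ((h2.symm.trans (Nr.of_adj hac)).trans hs2).mono (by omega)
          obtain ⟨W, hW⟩ : ∃ W : D.N.Walk y1 y0, ∀ z ∈ W.support, z ∈ Z.support := by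
            classical
            refine ⟨(Z.takeUntil y1 hy1).reverse.append (Z.takeUntil y0 hy0), fun z hz => ?_⟩
            rw [SimpleGraph.Walk.mem_support_append_iff, SimpleGraph.Walk.support_reverse,
              List.mem_reverse] at hz
            rcases hz with hz | hz
            · exact Z.support_takeUntil_subset_support hy1 hz
            · exact Z.support_takeUntil_subset_support hy0 hz
          exact hw W hW hy1p hy0q
        refine hdesc p ((h - 2) + 1 + (h - 2) + (h - 2)) (by omega) (by omega) ⟨y1, hy1, hy1p⟩ ?_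
        intro z hz
        obtain ⟨s, hs1, -, hs2⟩ := hnear z hz
        rcases hs1 with rfl | rfl
        · exact hs2.symm.mono (by omega)
        · exact hpq.trans hs2.symm

/-- **no cycle near a pin** -/
theorem no_cyc (hD : D.Ok) (hE : FE1 D k n0) (hk : 16 ≤ k) {p q : P} {ρ : ℕ}
    (hb : D.vol (D.ball ρ (D.x p)) ≤ n0) (hs : ∀ s, Pn D ρ (D.x p) s → s = p ∨ s = q) :
    ∀ v (Z : D.N.Walk v v), Z.IsCycle → ¬ ∀ z ∈ Z.support, Nr D.N (ρ / 4) (D.x p) z := by
  intro v Z hZ hin
  obtain ⟨v', Z', hZ', hl, hin'⟩ := short_cycle D.N (D.x p) (ρ / 4) Z hZ hin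
  have h3 := hZ'.three_le_length
  exact no_cyc_aux hD hE hk hb hs _ v' Z' hZ' le_rfl ⟨ρ / 4, by omega, hin'⟩

/-- two vertices of a cycle -/
theorem nr_cycle {N : SimpleGraph V} {v : V} (Z : N.Walk v v) {y z : V} (hy : y ∈ Z.support)
    (hz : z ∈ Z.support) : Nr N (Z.length / 2) y z := by
  classical
  have h1 : z ∈ (Z.rotate y hy).support := (Z.mem_support_rotate_iff y hy).2 hz
  have h2 : (Z.rotate y hy).length = Z.length := Z.length_rotate y hy
  obtain ⟨i, hi, hil⟩ := SimpleGraph.Walk.mem_support_iff_exists_getVert.1 h1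
  rw [h2] at hil
  rcases Nat.lt_or_ge (Z.length / 2) i with h | h
  · refine Nr.symm ⟨((Z.rotate y hy).drop i).copy hi rfl, ?_⟩
    rw [SimpleGraph.Walk.length_copy, SimpleGraph.Walk.drop_length, h2]
    omega
  · refine ⟨((Z.rotate y hy).take i).copy rfl hi, ?_⟩
    rw [SimpleGraph.Walk.length_copy, SimpleGraph.Walk.take_length, h2]
    omega

/-- a cycle through a vertex near a pin is long -/
theorem long_cyc (hD : D.Ok) (hE : FE1 D k n0) (hk : 16 ≤ k) {p q : P} {ρ d : ℕ}
    (hb : D.vol (D.ball ρ (D.x p)) ≤ n0) (hs : ∀ s, Pn D ρ (D.x p) s → s = p ∨ s = q)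
    {v : V} (Z : D.N.Walk v v) (hZ : Z.IsCycle) {y : V} (hy : y ∈ Z.support)
    (hyd : Nr D.N d (D.x p) y) : ρ / 4 < d + Z.length / 2 := by
  by_contra hcon
  exact no_cyc hD hE hk hb hs v Z hZ fun z hz => (hyd.trans (nr_cycle Z hy hz)).mono (by omega)

end

end Pool.Agent.Helper83.PH
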