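import Pool.Agent.Helper83.PH.PSlide
import Pool.Agent.Helper95.HH.VolCmp
import Pool.Agent.Helper95.HH.CoreF

/-!
# PH/SU: moving a ball around one vertex (drawing half of theorem (PH), MP_0dbcb7_co)

As `Helper95/HH/SU`, with the lower bound `R` for the lengths of the threads in place of `D.r`. The case of `place_slide` where the core is one vertex `u`: `B` is the ball of radius `ρ` around `u` in `G` without the
edge `e = u v` and without the hubs. It is a tree (`hcyc`) and no vertex of `B` is joined to a hub, except `u` by `e`. A path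
`P` of `G - e` from `u` to `v`, of length at most `K ρ` including the degrees of the hubs inside `P`. Then `G` is `k`-planar.
Covers E1, E2' and E4. The track of `u` is the walk of `ring_walk` (last vertex repeated up to `M = K ρ`).
`tt`, `par`, `core`: `core_forest` with `Γ = nil`, `J = ρ`. `B` does not meet the threads between hubs: `adj_wq` along a walk
from `z` to `u`. No adjacent hubs: `hub_nadj`. `K = 0` is impossible (`u ≠ v`).
-/

set_option autoImplicit false

open Set
open Pool.Agent.Helper83.OP Pool.Agent.Helper83.LN Pool.Agent.Helper83.HR Pool.Agent.Helper93.HH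
  Pool.Agent.Helper95.HH

namespace Pool.Agent.Helper83.PH

private theorem outG_le {V : Type} (G : SimpleGraph V) (U : Set V) (e : Sym2 V) : outG G U e ≤ G :=
  fun _ _ h => h.1

private theorem nr_not_U {V : Type} {G : SimpleGraph V} {U : Set V} {e : Sym2 V} {u z : V} {t : ℕ}
    (hu : u ∉ U) (h : Nr (outG G U e) t u z) : z ∉ U := by
  obtain ⟨p, -⟩ := h
  induction p with
  | nil => exact hu
  | cons h q ih => exact ih h.2.2.2

private theorem nr_not_wq {V P Q : Type} (D : HD V P Q) (hD : D.Ok) (hG : GOk D) {e : Sym2 V}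
    {u z : V} {t : ℕ} (q : Q) (hu : u ∉ D.U) (hq : u ∉ (D.wq q).support)
    (h : Nr (outG D.G D.U e) t u z) : z ∉ (D.wq q).support := by
  obtain ⟨p, -⟩ := h
  induction p with
  | nil => exact hq
  | cons h q' ih =>
    refine ih h.2.2.2 fun hv => hq ?_
    exact adj_wq D hD hG q _ _ hv h.2.2.2 h.1.symm

private theorem ringOut_walk_ne {V : Type} {H : SimpleGraph V} {U : Set V} {ord : V → V → ℕ}
    {s t : V ⊕ Dor H U} (W : (ringOut H U ord).Walk s t) (hs : ∀ a ∈ U, s ≠ Sum.inl a) (k : ℕ) :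
    ∀ a ∈ U, W.getVert k ≠ Sum.inl a := by
  induction W generalizing k with
  | nil => simpa using hs
  | cons h q ih =>
    cases k with
    | zero => simpa using hs
    | succ k =>
      rw [SimpleGraph.Walk.getVert_cons_succ]
      exact ih h.2.2 k

private theorem walk_step {V : Type} {R : SimpleGraph V} {s t : V} (W : R.Walk s t) (k K : ℕ)
    (hK : 1 ≤ K) : Nr R K (W.getVert k) (W.getVert (k + 1)) := by
  rcases lt_or_ge k W.length with h | h
  · exact (Nr.of_adj (W.adj_getVert_succ h)).mono hK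
  · rw [W.getVert_of_length_le h, W.getVert_of_length_le (by omega)]
    exact Nr.refl _ _ _

open Classical in
/-- moving a ball around one vertex -/
theorem place_SU (C K : ℕ) : ∃ k : ℕ, ∀ (V P Q : Type) [Finite V] (D : HD V P Q),
    D.Ok → GOk D → ∀ R : ℕ, 2 ≤ R → D.Kh * D.r ≤ C * R →
    (∀ u v (p : D.G.Walk u v), p.IsPath → u ≠ v → 3 ≤ deg D.G u →
      3 ≤ deg D.G v → (∀ x ∈ p.support, x ≠ u → x ≠ v → deg D.G x = 2) → R ≤ p.length) →
    (∀ e ∈ D.G.edgeSet, KPl 1 (D.G.deleteEdges {e})) →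
    ∀ (u v : V), D.G.Adj u v → u ∉ D.U → (∀ q, u ∉ (D.wq q).support) →
    ∀ (ρ : ℕ), 1 ≤ ρ →
    (∀ z, Nr (outG D.G D.U s(u, v)) ρ u z → ∀ a ∈ D.U, D.G.Adj z a → s(z, a) = s(u, v)) →
    Pool.Agent.Helper95.UP.vol D.G {z | Nr (outG D.G D.U s(u, v)) ρ u z} ≤ C * R →
    (∀ z (Z : (outG D.G D.U s(u, v)).Walk z z), Z.IsCycle → Nr (outG D.G D.U s(u, v)) ρ u z →
      2 * ρ + 1 < Z.length) →
    ¬ Nr (outG D.G D.U s(u, v)) ρ u v →
    ∀ (W : (D.G.deleteEdges {s(u, v)}).Walk u v), W.IsPath →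
    W.length + (W.support.map (fun z => if z ∈ D.U ∧ z ≠ v then deg D.G z else 0)).sum ≤ K * ρ →
    KPl k D.G := by
  obtain ⟨k, hk⟩ := place_slide C K
  refine ⟨k, ?_⟩
  intro V P Q _ D hD hG R hR2 hKh hRlow hcrit u v huv huU huq ρ hρ hhub hvol hcyc hv
  set G0 := outG D.G D.U s(u, v) with hG0
  set H := D.G.deleteEdges {s(u, v)} with hH
  intro W hW hWl
  have hne : u ≠ v := huv.ne
  have hK : 1 ≤ K := by
    by_contra hcon
    have h0 : K = 0 := by omega
    rw [h0, Nat.zero_mul] at hWl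
    exact hne (SimpleGraph.Walk.eq_of_length_eq_zero (p := W) (by omega))
  have hHG : H ≤ D.G := SimpleGraph.deleteEdges_le _
  have hHU : ∀ a ∈ D.U, ∀ b ∈ D.U, ¬ H.Adj a b := fun a ha b hb h => hub_nadj D hD hG a ha b hb (hHG h)
  obtain ⟨tt, par, core, c1, c2, c3, c4, c5, c6, -⟩ :=
    core_forest G0 ρ (SimpleGraph.Walk.nil : G0.Walk u u) SimpleGraph.Walk.IsPath.nil (by
      intro z Z hZ hz
      obtain ⟨y, hy, hyz⟩ := hz
      rw [SimpleGraph.Walk.support_nil, List.mem_singleton] at hy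
      subst hy
      have := hcyc z Z hZ hyz
      simpa using this)
  have hB : ∀ z, (∃ y ∈ (SimpleGraph.Walk.nil : G0.Walk u u).support, Nr G0 ρ y z) ↔ Nr G0 ρ u z := by
    intro z
    constructor
    · rintro ⟨y, hy, hyz⟩
      rw [SimpleGraph.Walk.support_nil, List.mem_singleton] at hy
      subst hy
      exact hyz
    · intro h
      exact ⟨u, by simp, h⟩
  simp only [hB] at c1 c2 c3 c4 c5 c6
  have c4' : ∀ z, Nr G0 ρ u z → (tt z = 0 ↔ z = u) := by
    intro z hz
    rw [c4 z hz, SimpleGraph.Walk.support_nil, List.mem_singleton]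
  have hdeg : ∀ z, deg H z ≤ deg D.G z := fun z =>
    Set.ncard_le_ncard (fun w hw => hHG hw) (Set.toFinite _)
  have hsum : W.length + (W.support.map (fun z => if z ∈ D.U ∧ z ≠ v then deg H z else 0)).sum ≤
      K * ρ := by
    refine le_trans (Nat.add_le_add_left (List.sum_le_sum fun z _ => ?_) _) hWl
    by_cases hz : z ∈ D.U ∧ z ≠ v
    · simp only [if_pos hz]
      exact hdeg z
    · simp only [if_neg hz]
      exact le_rfl
  refine hk V P Q D hD hG R hR2 hKh hRlow hcrit u v huv huU {z | Nr G0 ρ u z} tt par core ρ (K * ρ) u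
    ?_ ?_ ?_ hvol hρ le_rfl ?_ ?_ ?_ ?_ ?_ ?_ ?_ hv ?_ ?_
  · -- walks inside `B`
    intro w hw
    obtain ⟨p, hp⟩ := hw
    refine ⟨p.mapLe (outG_le _ _ _), fun z hz => ?_⟩
    rw [SimpleGraph.Walk.support_mapLe_eq_support] at hz
    exact (Nr.of_mem hz).mono hp
  · exact fun z hz => nr_not_U huU hz
  · exact fun z hz q => nr_not_wq D hD hG q huU (huq q) hz
  · exact fun z hz => c1 z hz
  · exact fun z hz h => c2 z hz h
  · exact fun z hz h => c3 z hz h
  · exact fun z hz z' hz' h => c5 z z' hz hz' h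
  · exact fun z hz z' hz' h => c6 z z' hz hz' h
  · exact Nr.refl _ _ _
  · exact (c4' u (Nr.refl _ _ _)).2 rfl
  · exact fun z hz a ha h h' => absurd (hhub z hz a ha h) h'
  · intro ord hord
    obtain ⟨hw1, hw2⟩ := ring_walk H D.U ord hord hHU huU W hW
    -- a walk to a vertex `t` near which `u` arrives
    have key : ∀ (t : V ⊕ Dor H D.U) (W' : (ringOut H D.U ord).Walk (Sum.inl u) t),
        W'.length ≤ K * ρ → (v ∉ D.U → t = Sum.inl v) →
        (v ∈ D.U → ∃ d : Dor H D.U, d.1.2 = v ∧ t = Sum.inr d) →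
        ∃ trk : V → ℕ → V ⊕ Dor H D.U,
        (∀ z ∈ {z | Nr G0 ρ u z}, tt z = 0 → ∀ k ≤ K * ρ, ∀ a ∈ D.U, trk z k ≠ Sum.inl a) ∧
        (∀ z ∈ {z | Nr G0 ρ u z}, tt z = 0 → trk z 0 = Sum.inl z) ∧
        (∀ z ∈ {z | Nr G0 ρ u z}, tt z = 0 → ∀ k < K * ρ,
          Nr (ringOut H D.U ord) K (trk z k) (trk z (k + 1))) ∧
        (∀ z ∈ {z | Nr G0 ρ u z}, ∀ z' ∈ {z | Nr G0 ρ u z}, G0.Adj z z' → tt z = 0 → tt z' = 0 →
          ∀ k ≤ K * ρ, Nr (ringOut H D.U ord) K (trk z k) (trk z' k)) ∧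
        (v ∉ D.U → Nr (ringOut H D.U ord) (K * R) (trk u (K * ρ)) (Sum.inl v)) ∧
        (v ∈ D.U → ∃ d : Dor H D.U, d.1.2 = v ∧
          Nr (ringOut H D.U ord) (K * R) (trk u (K * ρ)) (Sum.inr d)) ∧
        ∀ z ∈ {z | Nr G0 ρ u z}, ∀ a ∈ D.U, D.G.Adj z a → s(z, a) ≠ s(u, v) →
          ∃ d : Dor H D.U, d.1.2 = a ∧
          Nr (ringOut H D.U ord) (K * R) (trk z (K * ρ)) (Sum.inr d) := by
      intro t W' hl ht1 ht2
      have hend : W'.getVert (K * ρ) = t := W'.getVert_of_length_le hl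
      refine ⟨fun z k => if z = u then W'.getVert k else Sum.inl z, ?_, ?_, ?_, ?_, ?_, ?_, ?_⟩
      · intro z hz h0 k _ a ha
        have hzu := (c4' z hz).1 h0
        simp only [if_pos hzu]
        exact ringOut_walk_ne W' (fun a ha e => huU (Sum.inl.inj e ▸ ha)) k a ha
      · intro z hz h0
        have hzu := (c4' z hz).1 h0
        simp only [if_pos hzu, SimpleGraph.Walk.getVert_zero]
        rw [hzu]
      · intro z hz h0 k _
        have hzu := (c4' z hz).1 h0
        simp only [if_pos hzu]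
        exact walk_step W' k K hK
      · intro z hz z' hz' h h0 h0'
        have h1 := (c4' z hz).1 h0
        have h2 := (c4' z' hz').1 h0'
        rw [h1, h2] at h
        exact absurd rfl h.ne
      · intro hvU
        simp only [if_true, hend]
        rw [ht1 hvU]
        exact Nr.refl _ _ _
      · intro hvU
        obtain ⟨d, hd, htd⟩ := ht2 hvU
        refine ⟨d, hd, ?_⟩
        simp only [if_true, hend]
        rw [htd]
        exact Nr.refl _ _ _
      · exact fun z hz a ha h h' => absurd (hhub z hz a ha h) h'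
    by_cases hvU : v ∈ D.U
    · obtain ⟨d, hd, W', hW'⟩ := hw2 hvU
      exact key (Sum.inr d) W' (hW'.trans hsum) (fun h => absurd hvU h) fun _ => ⟨d, hd, rfl⟩
    · obtain ⟨W', hW'⟩ := hw1 hvU
      exact key (Sum.inl v) W' (hW'.trans hsum) (fun _ => rfl) fun h => absurd h hvU

end Pool.Agent.Helper83.PH
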