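import Pool.Agent.Helper95.HH.Slide
import Pool.Agent.Helper83.PH.Marks
import Pool.Agent.Helper95.HH.RingWalk
import Pool.Agent.Helper95.HH.Close

/-!
# PH/PSlide: moving a neighbourhood of a core makes the graph K-planar (drawing half of theorem (PH), MP_0dbcb7_co)

As `Helper95/HH/PSlide`, with the lower bound `R` for the lengths of the threads in place of `D.r`. `e = u v` is removed, `B` is the neighbourhood of radius `J` of a core that contains `u`, in `G` without `e` and the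
hubs; the volume of `B` is at most `C r`. For every numbering of the doors the core can be moved along tracks of at most
`K J` steps such that `u` arrives near `v` (near a door of `v`, if `v` is a hub), and every other vertex of `B` that is joined
to a hub arrives near a door of this hub. Then `G` is `k`-planar.

Proof. `marks_hub`, `slide` (with `c1 = K`, `Rg = ringOut`, `ι = inl`) and `surg_close_hub` with `r / 2` (`r ≤ 3 (r / 2)`,
so `deg ≤ 3 C² (r / 2)` etc.). The walk for a piece: the steps of the piece are edges of `outG` (`slide`), the edge `e`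
(`pl u = trk u M`, `pl v = inl v` as `v ∉ B`), or the last edge `z a` to a hub (`a ∈ U`; if `z ∉ B`, then `pl z = inl z` is
adjacent to the door `(z, a)`; if `z ∈ B`, `hhub`). At most one step of a piece is `e` and at most one goes to a hub.
-/

set_option autoImplicit false

open Set
open Pool.Agent.Helper83.OP Pool.Agent.Helper83.LN Pool.Agent.Helper83.HR Pool.Agent.Helper93.HH
  Pool.Agent.Helper95.HH

namespace Pool.Agent.Helper83.PH

private theorem nr_trans {W : Type} {R : SimpleGraph W} {a b c : W} {m n : ℕ}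
    (h : Nr R m a b) (h' : Nr R n b c) : Nr R (m + n) a c := by
  obtain ⟨p, hp⟩ := h
  obtain ⟨q, hq⟩ := h'
  exact ⟨p.append q, by rw [SimpleGraph.Walk.length_append]; omega⟩

private theorem nr_symm {W : Type} {R : SimpleGraph W} {a b : W} {m : ℕ}
    (h : Nr R m a b) : Nr R m b a := by
  obtain ⟨p, hp⟩ := h
  exact ⟨p.reverse, by rw [SimpleGraph.Walk.length_reverse]; exact hp⟩

private theorem nr_mono {W : Type} {R : SimpleGraph W} {a b : W} {m n : ℕ}
    (h : Nr R m a b) (hmn : m ≤ n) : Nr R n a b := by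
  obtain ⟨p, hp⟩ := h
  exact ⟨p, hp.trans hmn⟩

open Classical in
/-- the walk along a piece outside the hubs -/
private theorem nr_piece {V W T : Type} {G : SimpleGraph V} {U : Set V} {e : Sym2 V}
    (Th : Threads G T) (R : SimpleGraph W) (pl : V → W) (c m : ℕ)
    (hs : ∀ a b, G.Adj a b → s(a, b) ≠ e → a ∉ U → b ∉ U → Nr R c (pl a) (pl b))
    (he : ∀ a b, s(a, b) = e → a ∉ U → b ∉ U → Nr R m (pl a) (pl b)) (τ : T) (n : ℕ) :
    n ≤ Th.len τ → (∀ t ≤ n, Th.x τ t ∉ U) →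
    Nr R (c * n + if ∃ t < n, s(Th.x τ t, Th.x τ (t + 1)) = e then m else 0)
      (pl (Th.x τ 0)) (pl (Th.x τ n)) := by
  induction n with
  | zero =>
    intro _ _
    exact ⟨SimpleGraph.Walk.nil, Nat.zero_le _⟩
  | succ n ih =>
    intro hn hU
    have h1 := ih (by omega) (fun t ht => hU t (by omega))
    by_cases hen : s(Th.x τ n, Th.x τ (n + 1)) = e
    · have h2 : ¬ ∃ t < n, s(Th.x τ t, Th.x τ (t + 1)) = e := by
        rintro ⟨t, ht, hte⟩
        have h3 := (Th.uniq τ τ t n (by omega) (by omega) (hte.trans hen.symm)).2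
        omega
      have h3 : ∃ t < n + 1, s(Th.x τ t, Th.x τ (t + 1)) = e := ⟨n, by omega, hen⟩
      rw [if_neg h2] at h1
      rw [if_pos h3]
      refine nr_mono (nr_trans h1 (he _ _ hen (hU n (by omega)) (hU (n + 1) le_rfl))) ?_
      have h4 : c * (n + 1) = c * n + c := by ring
      omega
    · have h2 := hs _ _ (Th.adj τ n (by omega)) hen (hU n (by omega)) (hU (n + 1) le_rfl)
      refine nr_mono (nr_trans h1 h2) ?_
      have h4 : c * (n + 1) = c * n + c := by ring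
      by_cases h5 : ∃ t < n, s(Th.x τ t, Th.x τ (t + 1)) = e
      · obtain ⟨t, ht, hte⟩ := h5
        have h6 : ∃ t < n + 1, s(Th.x τ t, Th.x τ (t + 1)) = e := ⟨t, by omega, hte⟩
        rw [if_pos ⟨t, ht, hte⟩, if_pos h6]
        omega
      · rw [if_neg h5]
        omega

private theorem nr_piece' {V W T : Type} {G : SimpleGraph V} {U : Set V} {e : Sym2 V}
    (Th : Threads G T) (R : SimpleGraph W) (pl : V → W) (c m : ℕ)
    (hs : ∀ a b, G.Adj a b → s(a, b) ≠ e → a ∉ U → b ∉ U → Nr R c (pl a) (pl b))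
    (he : ∀ a b, s(a, b) = e → a ∉ U → b ∉ U → Nr R m (pl a) (pl b)) (τ : T) (n : ℕ)
    (hn : n ≤ Th.len τ) (hU : ∀ t ≤ n, Th.x τ t ∉ U) :
    Nr R (c * n + m) (pl (Th.x τ 0)) (pl (Th.x τ n)) := by
  classical
  refine nr_mono (nr_piece Th R pl c m hs he τ n hn hU) ?_
  split_ifs <;> omega

/-- moving a neighbourhood of a core -/
theorem place_slide (C K : ℕ) : ∃ k : ℕ, ∀ (V P Q : Type) [Finite V] (D : HD V P Q),
    D.Ok → GOk D → ∀ R : ℕ, 2 ≤ R → D.Kh * D.r ≤ C * R →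
    (∀ u v (p : D.G.Walk u v), p.IsPath → u ≠ v → 3 ≤ deg D.G u →
      3 ≤ deg D.G v → (∀ x ∈ p.support, x ≠ u → x ≠ v → deg D.G x = 2) → R ≤ p.length) →
    (∀ e ∈ D.G.edgeSet, KPl 1 (D.G.deleteEdges {e})) →
    ∀ (u v : V), D.G.Adj u v → u ∉ D.U →
    ∀ (B : Set V) (tt : V → ℕ) (par core : V → V) (J M : ℕ) (x0 : V),
    (∀ w ∈ B, ∃ p : D.G.Walk x0 w, ∀ z ∈ p.support, z ∈ B) →
    (∀ z ∈ B, z ∉ D.U) → (∀ z ∈ B, ∀ q, z ∉ (D.wq q).support) →
    Pool.Agent.Helper95.UP.vol D.G B ≤ C * R → 1 ≤ J → M ≤ K * J →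
    (∀ z ∈ B, tt z ≤ J) →
    (∀ z ∈ B, tt z ≠ 0 → par z ∈ B ∧ (outG D.G D.U s(u, v)).Adj z (par z) ∧
      tt (par z) + 1 = tt z ∧ core (par z) = core z) →
    (∀ z ∈ B, tt z = 0 → core z = z) →
    (∀ z ∈ B, ∀ z' ∈ B, (outG D.G D.U s(u, v)).Adj z z' →
      (tt z ≠ 0 ∧ par z = z') ∨ (tt z' ≠ 0 ∧ par z' = z) ∨ (tt z = 0 ∧ tt z' = 0)) →
    (∀ z ∈ B, ∀ z', z' ∉ B → (outG D.G D.U s(u, v)).Adj z z' → tt z = J) →
    u ∈ B → tt u = 0 → v ∉ B →
    (∀ z ∈ B, ∀ a ∈ D.U, D.G.Adj z a → s(z, a) ≠ s(u, v) → tt z = 0) →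
    (∀ ord : V → V → ℕ, IsOrd (D.G.deleteEdges {s(u, v)}) D.U ord →
      ∃ trk : V → ℕ → V ⊕ Dor (D.G.deleteEdges {s(u, v)}) D.U,
        (∀ z ∈ B, tt z = 0 → ∀ k ≤ M, ∀ a ∈ D.U, trk z k ≠ Sum.inl a) ∧
        (∀ z ∈ B, tt z = 0 → trk z 0 = Sum.inl z) ∧
        (∀ z ∈ B, tt z = 0 → ∀ k < M,
          Nr (ringOut (D.G.deleteEdges {s(u, v)}) D.U ord) K (trk z k) (trk z (k + 1))) ∧
        (∀ z ∈ B, ∀ z' ∈ B, (outG D.G D.U s(u, v)).Adj z z' → tt z = 0 → tt z' = 0 → ∀ k ≤ M,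
          Nr (ringOut (D.G.deleteEdges {s(u, v)}) D.U ord) K (trk z k) (trk z' k)) ∧
        (v ∉ D.U →
          Nr (ringOut (D.G.deleteEdges {s(u, v)}) D.U ord) (K * R) (trk u M) (Sum.inl v)) ∧
        (v ∈ D.U → ∃ d : Dor (D.G.deleteEdges {s(u, v)}) D.U, d.1.2 = v ∧
          Nr (ringOut (D.G.deleteEdges {s(u, v)}) D.U ord) (K * R) (trk u M) (Sum.inr d)) ∧
        ∀ z ∈ B, ∀ a ∈ D.U, D.G.Adj z a → s(z, a) ≠ s(u, v) →
          ∃ d : Dor (D.G.deleteEdges {s(u, v)}) D.U, d.1.2 = a ∧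
          Nr (ringOut (D.G.deleteEdges {s(u, v)}) D.U ord) (K * R) (trk z M) (Sum.inr d)) →
    KPl k D.G := by
  obtain ⟨k, hk⟩ := surg_close_hub (3 * C + 1) (K * (2 * K + 1) + 2 + 6 * K + 1)
  refine ⟨k, ?_⟩
  intro V P Q _ D hD hG R hR2 hKh hRlow hpl u v huv huU B tt par core J M x0 hB hBU hBq hvol hJ hM h1 h2 h3 h4
    h5 huB htu hvB hBh htrk
  obtain ⟨T, hT, Th, S0, hlen, hle, hS0, hcard, hxU, -⟩ := marks_hub D hD hG R hR2 hRlow B x0 hB hBU hBq
  have hr1 : 1 ≤ R / 2 := by omega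
  have hr3 : R ≤ 3 * (R / 2) := by omega
  have hout : ∀ τ, τ ∉ S0 → ∀ t ≤ Th.len τ, Th.x τ t ∉ B :=
    fun τ hτ t ht hm => hτ ((hS0 τ).2 ⟨t, ht, hm⟩)
  have hC : ∀ x : ℕ, x ≤ C * R + 1 → x ≤ (3 * C + 1) * (R / 2) := by
    intro x hx
    have e1 : C * R ≤ C * (3 * (R / 2)) := Nat.mul_le_mul_left _ hr3
    have e2 : (3 * C + 1) * (R / 2) = C * (3 * (R / 2)) + R / 2 := by ring
    omega
  refine hk V T D.G D.U Th s(u, v) (R / 2) S0 (hpl _ ((SimpleGraph.mem_edgeSet D.G).2 huv)) hr1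
    hG.deg_ne ?_ hG.U_ge ?_ (hC _ (by omega)) hlen hle hxU ?_ ?_
  · intro w hw
    refine hC _ (((hG.deg_le w hw).trans hKh).trans ?_)
    omega
  · intro a b p hp hab ha hb hx
    have := hRlow a b p hp hab ha hb hx
    omega
  · intro τ hτ t ht he
    have h6 : u ∈ s(Th.x τ t, Th.x τ (t + 1)) := by
      rw [he]
      exact Sym2.mem_mk_left u v
    rcases Sym2.mem_iff.1 h6 with h7 | h7
    · exact hout τ hτ t ht.le (h7 ▸ huB)
    · exact hout τ hτ (t + 1) ht (h7 ▸ huB)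
  intro ord hord
  obtain ⟨trk, k1, k2, k3, k4, k5, k6, k7⟩ := htrk ord hord
  have hι : ∀ a b, (outG D.G D.U s(u, v)).Adj a b →
      (ringOut (D.G.deleteEdges {s(u, v)}) D.U ord).Adj (Sum.inl a) (Sum.inl b) := by
    intro a b h
    exact ringOut_old ((SimpleGraph.deleteEdges_adj).2 ⟨h.1, fun hh => h.2.1 hh⟩) h.2.2.1 h.2.2.2
  obtain ⟨pl, p1, p2, p3, p4⟩ := slide (outG D.G D.U s(u, v))
    (ringOut (D.G.deleteEdges {s(u, v)}) D.U ord) Sum.inl hι K K J M hJ hM B tt par core trk h1 h2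
    h3 h4 h5 k2 k3 k4
  have hKr : ∀ τ, K * R ≤ 3 * K * Th.len τ := by
    intro τ
    have e1 : K * R ≤ K * (3 * (R / 2)) := Nat.mul_le_mul_left _ hr3
    have e2 : K * (3 * (R / 2)) ≤ K * (3 * Th.len τ) :=
      Nat.mul_le_mul_left _ (Nat.mul_le_mul_left _ (hlen τ))
    have e3 : 3 * K * Th.len τ = K * (3 * Th.len τ) := by ring
    omega
  have hs : ∀ a b, D.G.Adj a b → s(a, b) ≠ s(u, v) → a ∉ D.U → b ∉ D.U →
      Nr (ringOut (D.G.deleteEdges {s(u, v)}) D.U ord) (K * (2 * K + 1) + 2) (pl a) (pl b) :=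
    fun a b hab hne ha hb => p4 a b ⟨hab, hne, ha, hb⟩
  have he : ∀ a b, s(a, b) = s(u, v) → a ∉ D.U → b ∉ D.U →
      Nr (ringOut (D.G.deleteEdges {s(u, v)}) D.U ord) (K * R) (pl a) (pl b) := by
    intro a b hab ha hb
    rcases Sym2.eq_iff.1 hab with ⟨rfl, rfl⟩ | ⟨rfl, rfl⟩
    · rw [p2 _ huB htu, p1 _ hvB]
      exact k5 hb
    · rw [p2 _ huB htu, p1 _ hvB]
      exact nr_symm (k5 ha)
  refine ⟨pl, ?_, ?_, ?_, ?_⟩
  · intro w hw a ha hwa
    rcases p3 w with ⟨z', hz', h6⟩ | ⟨y, hy, k', hk', hty, hwy⟩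
    · rw [hwa] at hz'
      have h7 : a = z' := Sum.inl.inj hz'
      rcases h6 with h8 | h8
      · exact hw (h8 ▸ h7 ▸ ha)
      · exact hBU z' h8 (h7 ▸ ha)
    · exact k1 y hy hty k' hk' a ha (hwy.symm.trans hwa)
  · intro τ hτ
    exact ⟨p1 _ (hout τ hτ 0 (Nat.zero_le _)), fun _ => p1 _ (hout τ hτ _ le_rfl)⟩
  · intro τ hτ
    have hU : ∀ t ≤ Th.len τ, Th.x τ t ∉ D.U := by
      intro t ht
      rcases Nat.lt_or_ge t (Th.len τ) with h6 | h6
      · exact hxU τ t h6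
      · have h7 : t = Th.len τ := le_antisymm ht h6
        rw [h7]
        exact hτ
    obtain ⟨p, hp⟩ := nr_piece' Th _ pl _ _ hs he τ (Th.len τ) le_rfl hU
    refine ⟨p, hp.trans ?_⟩
    have e1 := hKr τ
    have e2 : (K * (2 * K + 1) + 2 + 6 * K + 1) * Th.len τ =
        (K * (2 * K + 1) + 2) * Th.len τ + 3 * K * Th.len τ + 3 * K * Th.len τ + Th.len τ := by
      ring
    omega
  · intro τ hτ
    obtain ⟨n, hn⟩ : ∃ n, Th.len τ = n + 1 :=
      ⟨Th.len τ - 1, by have := Th.pos τ; omega⟩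
    have hzU : Th.x τ n ∉ D.U := hxU τ n (by omega)
    have hadj := Th.adj τ n (by omega)
    have haU : Th.x τ (n + 1) ∈ D.U := by rw [← hn]; exact hτ
    have hlast : ∃ d : Dor (D.G.deleteEdges {s(u, v)}) D.U, d.1.2 = Th.x τ (n + 1) ∧
        Nr (ringOut (D.G.deleteEdges {s(u, v)}) D.U ord) (K * R + 1) (pl (Th.x τ n))
          (Sum.inr d) := by
      by_cases hne : s(Th.x τ n, Th.x τ (n + 1)) = s(u, v)
      · rcases Sym2.eq_iff.1 hne with ⟨h6, h7⟩ | ⟨h6, h7⟩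
        · obtain ⟨d, hd, hdn⟩ := k6 (h7 ▸ haU)
          refine ⟨d, hd.trans h7.symm, ?_⟩
          rw [h6, p2 _ huB htu]
          exact nr_mono hdn (by omega)
        · exact absurd (h7 ▸ haU) huU
      · by_cases hzB : Th.x τ n ∈ B
        · obtain ⟨d, hd, hdn⟩ := k7 _ hzB _ haU hadj hne
          refine ⟨d, hd, ?_⟩
          rw [p2 _ hzB (hBh _ hzB _ haU hadj hne)]
          exact nr_mono hdn (by omega)
        · have hH : (D.G.deleteEdges {s(u, v)}).Adj (Th.x τ n) (Th.x τ (n + 1)) :=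
            (SimpleGraph.deleteEdges_adj).2 ⟨hadj, fun hh => hne hh⟩
          refine ⟨mkDor _ _ hH haU, rfl, ?_⟩
          rw [p1 _ hzB]
          have h6 : (ringOut (D.G.deleteEdges {s(u, v)}) D.U ord).Adj (Sum.inl (Th.x τ n))
              (Sum.inr (mkDor _ _ hH haU)) := ringOut_door (mkDor _ _ hH haU) hzU
          refine ⟨SimpleGraph.Walk.cons h6 SimpleGraph.Walk.nil, ?_⟩
          rw [SimpleGraph.Walk.length_cons, SimpleGraph.Walk.length_nil]
          omega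
    obtain ⟨d, hd, hdn⟩ := hlast
    have hU : ∀ t ≤ n, Th.x τ t ∉ D.U := fun t ht => hxU τ t (by omega)
    obtain ⟨p, hp⟩ := nr_trans (nr_piece' Th _ pl _ _ hs he τ n (by omega) hU) hdn
    refine ⟨d, by rw [hn]; exact hd, p, hp.trans ?_⟩
    have e1 := hKr τ
    have e2 : (K * (2 * K + 1) + 2 + 6 * K + 1) * Th.len τ =
        (K * (2 * K + 1) + 2) * Th.len τ + 3 * K * Th.len τ + 3 * K * Th.len τ + Th.len τ := by
      ring
    have e3 : (K * (2 * K + 1) + 2) * n ≤ (K * (2 * K + 1) + 2) * Th.len τ :=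
      Nat.mul_le_mul_left _ (by omega)
    omega

end Pool.Agent.Helper83.PH
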