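import Pool.Agent.Helper23.PL.Defs
import Pool.Agent.Helper95.HH.GOk

/-!
# PH: the facts given by the drawings when all threads are long (MP_0dbcb7_co). Definitions.

`R`: lower bound for the lengths of the paths between vertices of degree at least three with inner vertices of degree two.
The degrees outside the hubs are at most `D.Kh * D.r ≤ C R`, and `n0 ≤ C R`: a ball of volume at most `n0` can be moved as a
whole (`place_slide`, `place_SU`) with crossing bound `f C k`, independent of `R` and `n0`. (`R = D.r` is the main case.)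
-/

set_option autoImplicit false
set_option linter.unusedSectionVars false

open Set
open Pool.Agent.Helper83.OP Pool.Agent.Helper93.HH Pool.Agent.Helper95.HH Pool.Agent.Helper23.PL

namespace Pool.Agent.Helper83.PH

section

variable {V P Q : Type} [Finite V] (D : HD V P Q)

/-- the threads have length at least `R` -/
def Low (R : ℕ) : Prop := ∀ u v (p : D.G.Walk u v), p.IsPath → u ≠ v → 3 ≤ deg D.G u →
  3 ≤ deg D.G v → (∀ x ∈ p.support, x ≠ u → x ≠ v → deg D.G x = 2) → R ≤ p.length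

/-- every cycle of `N` has more than `k` branch vertices -/
def FCyc (k : ℕ) : Prop :=
  ∀ v (Z : D.N.Walk v v), Z.IsCycle → k < {z | z ∈ Z.support ∧ 3 ≤ D.dg z}.ncard

/-- no bypass of a thread between two hubs -/
def FQ1 (k : ℕ) : Prop :=
  ∀ q y z, Nb D (Fq D q) (D.ha q) y → Nb D (Fq D q) (D.hb q) z →
    ¬ Rch D (Fq D q) (k * (D.wq q).length) y z

/-- no bypass of a pin -/
def FP1 (k : ℕ) : Prop := ∀ p, ¬ Byp D (Fp D p) (k * (D.w p).length) (D.x p) (D.hub p)

/-- no short cycle of `N` at a vertex without pins nearby -/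
def FE1 (k n0 : ℕ) : Prop :=
  ∀ v (Z : D.N.Walk v v), Z.IsCycle → ∀ y ∈ Z.support, ∀ ρ, D.vol (D.ball ρ y) ≤ n0 →
    (∀ q, ¬ Pn D ρ y q) → k * ρ < Z.length

/-- no bypass of a pin in a ball with one pin -/
def FP2 (k n0 : ℕ) : Prop :=
  ∀ p ρ, 1 ≤ ρ → D.vol (D.ball ρ (D.x p)) ≤ n0 → (∀ s, Pn D ρ (D.x p) s → s = p) →
    ¬ Byp D (Fp D p) (k * ρ) (D.x p) (D.hub p)

/-- a ball with two pins at different hubs: no short walk `W` between the hubs near `x p` -/
def FP3 (k n0 : ℕ) : Prop :=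
  ∀ p q ρ t, D.hub q ≠ D.hub p → Nr D.N t (D.x p) (D.x q) →
    64 * ((D.w p).length + t + (D.w q).length) ≤ ρ → D.vol (D.ball ρ (D.x p)) ≤ n0 →
    (∀ s, Pn D ρ (D.x p) s → s = p ∨ s = q) →
    ∀ y z (W : D.G.Walk y z), Nb D (Fp D p) (D.hub p) y → Nb D (Fp D p) (D.hub q) z →
      (∀ f ∈ W.edges, f ∉ Fp D p) →
      (∀ t', Nr D.N t' (D.x p) (D.x q) → cw D W ≤ k * ((D.w p).length + t' + (D.w q).length)) →
      ∀ v ∈ W.support, ¬ Rch D (Fp D p) (k * ρ) (D.x p) v

/-- **The facts given by the drawings** -/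
structure BadW (k n0 : ℕ) : Prop where
  cyc : FCyc D k
  q1 : FQ1 D k
  p1 : FP1 D k
  e1 : FE1 D k n0
  p2 : FP2 D k n0
  p3 : FP3 D k n0

/-- the hypotheses of the drawing half -/
structure Hyp (C R n0 : ℕ) : Prop where
  ok : D.Ok
  gok : GOk D
  two : 2 ≤ R
  deg : D.Kh * D.r ≤ C * R
  vol : n0 ≤ C * R
  low : Low D R
  crit : ∀ e ∈ D.G.edgeSet, KPl 1 (D.G.deleteEdges {e})

end

end Pool.Agent.Helper83.PH
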