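import Pool.Agent.Helper83.PH.Cyc
import Pool.Agent.Helper83.PH.E1
import Pool.Agent.Helper95.PH.P2
import Pool.Agent.Helper95.PH.P3

/-!
# PH/Draw: the drawing half of theorem (PH) (MP_0dbcb7_co)
-/

set_option autoImplicit false

open Set
open Pool.Agent.Helper83.OP Pool.Agent.Helper93.HH Pool.Agent.Helper95.HH Pool.Agent.Helper23.PL

namespace Pool.Agent.Helper83.PH

/-- **The drawing half.** A 1-planar-critical graph with threads of length at least `R`, degrees at most `C R` outside the hubs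
and `n0 ≤ C R`, which is not `f C k`-planar, has all the properties `BadW D k n0`. -/
theorem draw_PH : ∃ f : ℕ → ℕ → ℕ, ∀ C k : ℕ, 16 ≤ k → ∀ (V P Q : Type) [Finite V]
    (D : HD V P Q) (R n0 : ℕ), Hyp D C R n0 → ¬ KPl (f C k) D.G → BadW D k n0 := by
  have hE : ∀ C k : ℕ, ∃ kk : ℕ, 3 ≤ k → ∀ (V P Q : Type) [Finite V]
      (D : HD V P Q) (R n0 : ℕ), Hyp D C R n0 → FCyc D k → ¬ KPl kk D.G → FE1 D k n0 := by
    intro C k
    by_cases hk : 3 ≤ k
    · obtain ⟨kk, h⟩ := draw_e1 C k hk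
      exact ⟨kk, fun _ => h⟩
    · exact ⟨0, fun h => absurd h hk⟩
  choose f1 h1 using hE
  choose f2 h2 using Pool.Agent.Helper95.PH.draw_p2
  choose f3 h3 using Pool.Agent.Helper95.PH.draw_p3
  refine ⟨fun C k => f1 C k + f2 C k + f3 C k + max 9 (2 * (24 * k + 2 * (C * k))) +
    max 9 (2 * (2 * ((k + 1) + 2 * ((k + 1) + 1) + C * ((k + 1) + 1) + 8 * (k + 1)))), ?_⟩
  intro C k hk V P Q _ D R n0 h hno
  have hle : ∀ m, m ≤ f1 C k + f2 C k + f3 C k + max 9 (2 * (24 * k + 2 * (C * k))) +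
      max 9 (2 * (2 * ((k + 1) + 2 * ((k + 1) + 1) + C * ((k + 1) + 1) + 8 * (k + 1)))) →
      ¬ KPl m D.G := fun m hm hK => hno (kpl_le hK hm)
  have c1 : FCyc D k := draw_cyc h (by omega) (hle _ (by omega))
  have c2 : FQ1 D k := draw_q1 h (by omega) (hle _ (by omega))
  have c3 : FP1 D k := draw_p1 h (by omega) (hle _ (by omega))
  have c4 : FE1 D k n0 := h1 C k (by omega) V P Q D R n0 h c1 (hle _ (by omega))
  exact ⟨c1, c2, c3, c4, h2 C k V P Q D R n0 h hk c4 (hle _ (by omega)),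
    h3 C k V P Q D R n0 h hk c4 (hle _ (by omega))⟩

end Pool.Agent.Helper83.PH
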